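import Pool.Agent.Y201.LI.Stm4
import Pool.Agent.Y363.LI.Tri
import Pool.Agent.H552R3.Tsen.Zero

/-!
# Project LI, job RK1 (helper905): a linear subspace of a cubic hypersurface is contained in a
linear space on which the residual quadric is a double hyperplane
-/

set_option autoImplicit false

namespace Pool.Agent.Y905.LI

open MvPolynomial Pool.Agent.Y363.LI

noncomputable section

variable {r : ℕ} {T : Fin r → Fin r → Fin r → ℂ}

/-- `Bf` as a linear map in the second variable -/
def lin2 (T : Fin r → Fin r → Fin r → ℂ) (x z : Fin r → ℂ) : (Fin r → ℂ) →ₗ[ℂ] ℂ where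
  toFun y := Bf T x y z
  map_add' := fun _ _ => Bf_add2 _ _ _ _
  map_smul' := fun _ _ => Bf_smul2 _ _ _ _

/-- `Bf` as a linear map in the third variable -/
def lin3 (T : Fin r → Fin r → Fin r → ℂ) (x y : Fin r → ℂ) : (Fin r → ℂ) →ₗ[ℂ] ℂ where
  toFun z := Bf T x y z
  map_add' := fun _ _ => Bf_add3 _ _ _ _
  map_smul' := fun _ _ => Bf_smul3 _ _ _ _

theorem Bf_sum2 {m : ℕ} (x z : Fin r → ℂ) (c : Fin m → ℂ) (p : Fin m → Fin r → ℂ) :
    Bf T x (∑ a, c a • p a) z = ∑ a, c a * Bf T x (p a) z := by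
  have := map_sum (lin2 T x z) (fun a => c a • p a) Finset.univ
  simp only [map_smul, smul_eq_mul] at this
  exact this

theorem Bf_sum3 {m : ℕ} (x y : Fin r → ℂ) (c : Fin m → ℂ) (p : Fin m → Fin r → ℂ) :
    Bf T x y (∑ a, c a • p a) = ∑ a, c a * Bf T x y (p a) := by
  have := map_sum (lin3 T x y) (fun a => c a • p a) Finset.univ
  simp only [map_smul, smul_eq_mul] at this
  exact this

theorem Bf_zero1 {R : Type} [CommRing R] [Algebra ℂ R] (y z : Fin r → R) : Bf T 0 y z = 0 := by
  simp [Bf]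

/-- the index set of the equations -/
abbrev Ix (m : ℕ) := (i : Fin (m + 1)) × Fin (i.val + 1)

theorem gauss (n : ℕ) : 2 * ∑ i ∈ Finset.range n, (i + 1) = n * (n + 1) := by
  induction n with
  | zero => simp
  | succ n ih =>
    rw [Finset.sum_range_succ, mul_add, ih]
    ring

theorem card_Ix (m : ℕ) : 2 * Fintype.card (Ix m) = (m + 1) * (m + 2) := by
  rw [Fintype.card_sigma]
  simp only [Fintype.card_fin]
  rw [Fin.sum_univ_eq_sum_range (fun i => i + 1) (m + 1), gauss]

/-- the coefficients -/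
def kap {m : ℕ} (i j : Fin (m + 1)) : ℂ :=
  if i = 0 ∧ j = 0 then 1 else if i = 0 ∨ j = 0 then 3 / 2 else 3

theorem kap_comm {m : ℕ} (i j : Fin (m + 1)) : kap i j = kap j i := by
  unfold kap
  by_cases h1 : i = 0 <;> by_cases h2 : j = 0 <;> simp [h1, h2]

/-- the vectors `η, p 0, p 1, …` -/
def Pv {R : Type} [CommRing R] [Algebra ℂ R] {m : ℕ} (p : Fin m → Fin r → ℂ) (η : Fin r → R)
    (i : Fin (m + 1)) : Fin r → R :=
  Fin.cons (α := fun _ => Fin r → R) η (fun a j => algebraMap ℂ R (p a j)) i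

theorem rk1 : Pool.Agent.Y201.LI.S_RK1 := by
  classical
  intro r m F hF hr p hp hline
  obtain ⟨T, hT, hFT, -⟩ := exists_T F hF
  have hev : ∀ (R : Type) [CommRing R] [Algebra ℂ R] (x : Fin r → R),
      aeval x F = Bf T x x x := by
    intro R _ _ x
    conv_lhs => rw [hFT]
    rw [map_Bf]
    simp only [aeval_X]
  have hevC : ∀ x : Fin r → ℂ, eval x F = Bf T x x x := by
    intro x
    rw [← hev ℂ x]
    exact (MvPolynomial.coe_aeval_eq_eval x ▸ rfl)
  have hmr : m ≤ r := by
    have := hp.fintype_card_le_finrank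
    rwa [Fintype.card_fin, Module.finrank_fin_fun] at this
  -- more directions
  obtain ⟨u, hu⟩ : ∃ u : Fin (r - m) → Fin r → ℂ, ∀ y : Fin (r - m) → ℂ,
      ∑ i, y i • u i ∈ Submodule.span ℂ (Set.range p) → y = 0 := by
    set N := Submodule.span ℂ (Set.range p) with hN
    have h1 : Module.finrank ℂ N = m := by
      rw [hN, finrank_span_eq_card hp, Fintype.card_fin]
    have h2 : Module.finrank ℂ ((Fin r → ℂ) ⧸ N) + Module.finrank ℂ N = r := by
      rw [Submodule.finrank_quotient_add_finrank, Module.finrank_fin_fun]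
    have h3 : r - m ≤ Module.finrank ℂ ((Fin r → ℂ) ⧸ N) := by omega
    obtain ⟨w, hw⟩ := exists_linearIndependent_of_le_finrank h3
    choose u hu using fun i => N.mkQ_surjective (w i)
    refine ⟨u, fun y hy => ?_⟩
    have h4 : ∑ i, y i • w i = 0 := by
      have h5 : N.mkQ (∑ i, y i • u i) = 0 := by
        rw [Submodule.mkQ_apply, Submodule.Quotient.mk_eq_zero]
        exact hy
      rw [map_sum] at h5
      rw [← h5]
      exact Finset.sum_congr rfl fun i _ => by rw [map_smul, hu]
    ext i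
    exact (Fintype.linearIndependent_iff.1 hw) y h4 i
  -- the equations
  let σ := Fin (r - m) ⊕ Fin (m + 1)
  let ηp : Fin r → MvPolynomial σ ℂ := fun j => ∑ i, C (u i j) * X (Sum.inl i)
  let E : Fin (m + 1) → Fin (m + 1) → MvPolynomial σ ℂ := fun i j =>
    C (kap i j) * Bf T ηp (Pv p ηp i) (Pv p ηp j) - X (Sum.inr i) * X (Sum.inr j)
  have hEev : ∀ (v : σ → ℂ) (i j : Fin (m + 1)), eval v (E i j) =
      kap i j * Bf T (∑ a, v (Sum.inl a) • u a) (Pv p (∑ a, v (Sum.inl a) • u a) i)
        (Pv p (∑ a, v (Sum.inl a) • u a) j) - v (Sum.inr i) * v (Sum.inr j) := by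
    intro v i j
    have hη : (fun k => (aeval v : MvPolynomial σ ℂ →ₐ[ℂ] ℂ) (ηp k)) =
        ∑ a, v (Sum.inl a) • u a := by
      ext k
      simp only [ηp, map_sum, map_mul, aeval_C, aeval_X, Finset.sum_apply, Pi.smul_apply,
        smul_eq_mul, Algebra.algebraMap_self, RingHom.id_apply]
      exact Finset.sum_congr rfl fun a _ => mul_comm _ _
    have hP : ∀ i, (fun k => (aeval v : MvPolynomial σ ℂ →ₐ[ℂ] ℂ) (Pv p ηp i k)) =
        Pv p (∑ a, v (Sum.inl a) • u a) i := by
      intro i
      refine Fin.cases ?_ (fun a => ?_) i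
      · exact hη
      · ext k
        simp only [Pv, Fin.cons_succ, AlgHom.commutes]
    have h1 : eval v (E i j) = (aeval v : MvPolynomial σ ℂ →ₐ[ℂ] ℂ) (E i j) :=
      (MvPolynomial.coe_aeval_eq_eval v ▸ rfl)
    rw [h1]
    simp only [E, map_sub, map_mul, aeval_C, aeval_X, map_Bf, hη, hP, Algebra.algebraMap_self,
      RingHom.id_apply]
  let P : Ix m → MvPolynomial σ ℂ := fun t => E t.1 ⟨t.2.val, by have := t.2.2; have := t.1.2; omega⟩
  have hP0 : ∀ t, eval 0 (P t) = 0 := by
    intro t
    show eval 0 (E _ _) = 0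
    rw [hEev]
    have : ∑ a, (0 : σ → ℂ) (Sum.inl a) • u a = 0 := by simp
    rw [this, Bf_zero1]
    simp
  have hcard : Fintype.card (Ix m) < Fintype.card σ := by
    have h1 := card_Ix m
    have h2 : Fintype.card σ = r + 1 := by
      show Fintype.card (Fin (r - m) ⊕ Fin (m + 1)) = r + 1
      rw [Fintype.card_sum, Fintype.card_fin, Fintype.card_fin]
      omega
    rw [h2]
    nlinarith
  obtain ⟨v, hv0, hv⟩ := Pool.Agent.H552R3.Tsen.exists_common_zero P hP0 hcard
  set η : Fin r → ℂ := ∑ a, v (Sum.inl a) • u a with hη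
  set L : Fin (m + 1) → ℂ := fun i => v (Sum.inr i) with hL
  have hE : ∀ i j : Fin (m + 1), j ≤ i →
      kap i j * Bf T η (Pv p η i) (Pv p η j) = L i * L j := by
    intro i j hij
    have h1 := hv ⟨i, ⟨j.val, by have : j.val ≤ i.val := hij; omega⟩⟩
    have h2 : eval v (E i j) = 0 := h1
    rw [hEev] at h2
    linear_combination h2
  have hE' : ∀ i j : Fin (m + 1),
      kap i j * Bf T η (Pv p η i) (Pv p η j) = L i * L j := by
    intro i j
    rcases le_total j i with h | h
    · exact hE i j h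
    · rw [kap_comm, Bf_23 hT, hE j i h, mul_comm]
  have hy : (fun a => v (Sum.inl a)) ≠ (0 : Fin (r - m) → ℂ) := by
    intro h0
    have hη0 : η = 0 := by
      rw [hη]
      apply Finset.sum_eq_zero
      intro a _
      have := congrFun h0 a
      simp only [Pi.zero_apply] at this
      rw [this, zero_smul]
    apply hv0
    ext s
    rcases s with a | i
    · exact congrFun h0 a
    · have h1 := hE' i i
      rw [hη0, Bf_zero1, mul_zero] at h1
      exact mul_self_eq_zero.1 h1.symm
  have hηN : η ∉ Submodule.span ℂ (Set.range p) := fun h => hy (hu _ h)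
  refine ⟨η, L 0, fun a => L a.succ, hηN, fun w c => ?_⟩
  have e0 : Bf T η η η = L 0 * L 0 := by
    have := hE' 0 0
    simpa [kap, Pv] using this
  have e1 : ∀ a : Fin m, 3 * Bf T η η (p a) = 2 * (L 0 * L a.succ) := by
    intro a
    have := hE' 0 a.succ
    have h2 : Pv p η a.succ = p a := by
      ext k
      simp [Pv]
    have h3 : Pv p η 0 = η := rfl
    rw [h2, h3] at this
    have h4 : kap (0 : Fin (m + 1)) a.succ = 3 / 2 := by
      unfold kap
      simp [Fin.succ_ne_zero]
    rw [h4] at this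
    linear_combination 2 * this
  have e2 : ∀ a b : Fin m, 3 * Bf T η (p a) (p b) = L a.succ * L b.succ := by
    intro a b
    have := hE' a.succ b.succ
    have h2 : ∀ a : Fin m, Pv p η a.succ = p a := by
      intro a
      ext k
      simp [Pv]
    rw [h2, h2] at this
    have h4 : kap a.succ b.succ = 3 := by
      unfold kap
      simp [Fin.succ_ne_zero]
    rwa [h4] at this
  set V : Fin r → ℂ := ∑ a, c a • p a with hV
  have f1 : 3 * Bf T V η η = 2 * L 0 * ∑ a, c a * L a.succ := by
    rw [Bf_12 hT, Bf_23 hT, hV, Bf_sum3, Finset.mul_sum, Finset.mul_sum]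
    refine Finset.sum_congr rfl fun a _ => ?_
    linear_combination c a * e1 a
  have f2 : 3 * Bf T V V η = (∑ a, c a * L a.succ) ^ 2 := by
    rw [Bf_23 hT, Bf_12 hT]
    conv_lhs => rw [hV]
    rw [Bf_sum2, sq, Finset.sum_mul_sum, Finset.mul_sum]
    refine Finset.sum_congr rfl fun a _ => ?_
    rw [Bf_sum3, Finset.mul_sum, Finset.mul_sum]
    refine Finset.sum_congr rfl fun b _ => ?_
    linear_combination c a * c b * e2 a b
  have f0 : Bf T V V V = 0 := by
    rw [← hevC]
    exact hline c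
  rw [hevC, add_comm (w • η) V, cube hT, f0, e0]
  linear_combination w * f2 + w ^ 2 * f1

end

end Pool.Agent.Y905.LI

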